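import Pool.Agent.TH693.CT.Stm
import Pool.Agent.H510R2.Div

set_option autoImplicit false

/-!
# All solutions of `a ^ 2 - 2 b ^ 2 = D` in a box
-/

namespace Pool.Agent.TH566.CT

open Finset Pool.Agent.TH693.CT

theorem fibre_le {D : ℤ} {A : ℕ} (hD : Odd D) (h2 : SC2) (g : ℕ) :
    ((Sol D A).filter (fun p => Int.gcd p.1 p.2 = g)).card ≤
      D.natAbs.divisors.card * (Sol 1 (3 * A ^ 2)).card := by
  classical
  rcases ((Sol D A).filter (fun p => Int.gcd p.1 p.2 = g)).eq_empty_or_nonempty with he | hne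
  · rw [he]; simp
  have hD0 : D ≠ 0 := by rintro rfl; simp at hD
  obtain ⟨p, hp⟩ := hne
  simp only [Sol, mem_filter, mem_product, mem_Icc] at hp
  obtain ⟨⟨-, hpD⟩, hpg⟩ := hp
  have hg1 : (g : ℤ) ∣ p.1 := hpg ▸ Int.gcd_dvd_left ..
  have hg2 : (g : ℤ) ∣ p.2 := hpg ▸ Int.gcd_dvd_right ..
  have hgD : (g : ℤ) ^ 2 ∣ D := by
    rw [← hpD]
    exact dvd_sub (pow_dvd_pow_of_dvd hg1 2) ((pow_dvd_pow_of_dvd hg2 2).mul_left 2)
  obtain ⟨D', hD'⟩ := hgD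
  have hg0 : (g : ℤ) ≠ 0 := by
    intro h
    rw [h] at hD'
    apply hD0
    rw [hD']
    ring
  have hgpos : (1 : ℤ) ≤ g := by
    have : (0 : ℤ) ≤ g := Int.natCast_nonneg g
    omega
  have hodd : Odd D' := by
    rw [hD'] at hD
    exact (Int.odd_mul.1 hD).2
  have hcard : ((Sol D A).filter (fun p => Int.gcd p.1 p.2 = g)).card ≤ (Prim D' A).card := by
    apply Finset.card_le_card_of_injOn (fun p : ℤ × ℤ => (p.1 / g, p.2 / g))
    · intro q hq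
      simp only [Sol, coe_filter, mem_product, mem_Icc, Set.mem_ofPred_eq, mem_filter] at hq
      obtain ⟨⟨⟨⟨q1, q2⟩, q3, q4⟩, hqD⟩, hqg⟩ := hq
      have hq1 : (g : ℤ) ∣ q.1 := hqg ▸ Int.gcd_dvd_left ..
      have hq2 : (g : ℤ) ∣ q.2 := hqg ▸ Int.gcd_dvd_right ..
      obtain ⟨u, hu⟩ := hq1
      obtain ⟨v, hv⟩ := hq2
      have hu' : q.1 / g = u := by rw [hu]; exact Int.mul_ediv_cancel_left _ hg0
      have hv' : q.2 / g = v := by rw [hv]; exact Int.mul_ediv_cancel_left _ hg0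
      have hgu : |u| ≤ A := by
        have h1 : |q.1| ≤ A := abs_le.2 ⟨q1, q2⟩
        rw [hu, abs_mul, abs_of_pos (by omega : (0:ℤ) < g)] at h1
        nlinarith [abs_nonneg u]
      have hgv : |v| ≤ A := by
        have h1 : |q.2| ≤ A := abs_le.2 ⟨q3, q4⟩
        rw [hv, abs_mul, abs_of_pos (by omega : (0:ℤ) < g)] at h1
        nlinarith [abs_nonneg v]
      simp only [Prim, Sol, coe_filter, mem_filter, mem_product, mem_Icc, Set.mem_ofPred_eq, hu', hv']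
      refine ⟨⟨⟨abs_le.1 hgu, abs_le.1 hgv⟩, ?_⟩, ?_⟩
      · have h1 : (g : ℤ) ^ 2 * (u ^ 2 - 2 * v ^ 2) = g ^ 2 * D' := by
          rw [← hD', ← hqD, hu, hv]; ring
        exact mul_left_cancel₀ (pow_ne_zero 2 hg0) h1
      · have h1 : Int.gcd (g * u) (g * v) = g := by rw [← hu, ← hv]; exact hqg
        rw [Int.gcd_mul_left, Int.natAbs_natCast] at h1
        have h2 : g ≠ 0 := by exact_mod_cast hg0
        exact Nat.eq_of_mul_eq_mul_left (Nat.pos_of_ne_zero h2) (by rw [h1, mul_one])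
    · intro q hq r hr hqr
      simp only [Sol, coe_filter, mem_product, mem_Icc, Set.mem_ofPred_eq, mem_filter] at hq hr
      have hq1 : (g : ℤ) ∣ q.1 := hq.2 ▸ Int.gcd_dvd_left ..
      have hq2 : (g : ℤ) ∣ q.2 := hq.2 ▸ Int.gcd_dvd_right ..
      have hr1 : (g : ℤ) ∣ r.1 := hr.2 ▸ Int.gcd_dvd_left ..
      have hr2 : (g : ℤ) ∣ r.2 := hr.2 ▸ Int.gcd_dvd_right ..
      simp only [Prod.mk.injEq] at hqr
      refine Prod.ext ?_ ?_
      · rw [← Int.ediv_mul_cancel hq1, ← Int.ediv_mul_cancel hr1, hqr.1]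
      · rw [← Int.ediv_mul_cancel hq2, ← Int.ediv_mul_cancel hr2, hqr.2]
  refine hcard.trans ((h2 D' A hodd).trans (Nat.mul_le_mul_right _ (card_le_card ?_)))
  refine Nat.divisors_subset_of_dvd (by simpa using hD0) (Int.natAbs_dvd_natAbs.2 ?_)
  exact ⟨(g : ℤ) ^ 2, by rw [hD']; ring⟩

theorem sol_le {D : ℤ} {A : ℕ} (hD : Odd D) (h2 : SC2) :
    (Sol D A).card ≤ D.natAbs.divisors.card * (Sol 1 (3 * A ^ 2)).card * D.natAbs.divisors.card := by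
  classical
  have hD0 : D ≠ 0 := by rintro rfl; simp at hD
  refine Finset.card_le_mul_card_image_of_maps_to (f := fun p : ℤ × ℤ => Int.gcd p.1 p.2)
    (t := D.natAbs.divisors) ?_ _ fun g _ => fibre_le hD h2 g
  intro p hp
  simp only [Sol, mem_filter] at hp
  rw [Nat.mem_divisors]
  refine ⟨?_, by simpa using hD0⟩
  rw [← Int.natCast_dvd, ← hp.2]
  have h1 : ((Int.gcd p.1 p.2 : ℕ) : ℤ) ∣ p.1 := Int.gcd_dvd_left ..
  have h3 : ((Int.gcd p.1 p.2 : ℕ) : ℤ) ∣ p.2 := Int.gcd_dvd_right ..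
  exact dvd_sub (dvd_pow h1 two_ne_zero) ((dvd_pow h3 two_ne_zero).mul_left 2)

theorem sc3 : SC1 → SC2 → SC := by
  rintro ⟨K1, hK1⟩ h2 ε hε
  obtain ⟨C, hC0, hC⟩ := Pool.Agent.H510R2.divisor_bound (ε / 6) (by positivity)
  refine ⟨(K1 + 1) * C ^ 3 * (3 : ℝ) ^ (ε / 2), by positivity, fun D A hD hA => ?_⟩
  have hD0 : D ≠ 0 := by rintro rfl; simp at hD
  have hA' : (1 : ℝ) ≤ A := by exact_mod_cast hA
  rcases (Sol D A).eq_empty_or_nonempty with he | ⟨p, hp⟩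
  · rw [he, card_empty, Nat.cast_zero]; positivity
  -- the size of D
  have hn : D.natAbs ≤ 3 * A ^ 2 := by
    simp only [Sol, mem_filter, mem_product, mem_Icc] at hp
    obtain ⟨⟨⟨p1, p2⟩, p3, p4⟩, hpD⟩ := hp
    have h1 : p.1 ^ 2 ≤ (A : ℤ) ^ 2 := sq_le_sq' p1 p2
    have h3 : p.2 ^ 2 ≤ (A : ℤ) ^ 2 := sq_le_sq' p3 p4
    have h4 : |D| ≤ 3 * (A : ℤ) ^ 2 := by
      rw [← hpD, abs_le]
      constructor <;> nlinarith [sq_nonneg p.1, sq_nonneg p.2]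
    have h5 : ((D.natAbs : ℕ) : ℤ) ≤ ((3 * A ^ 2 : ℕ) : ℤ) := by
      rw [Int.natCast_natAbs]; push_cast; exact h4
    exact_mod_cast h5
  set X : ℝ := 3 * (A : ℝ) ^ 2 with hX
  have hX1 : (1 : ℝ) ≤ X := by rw [hX]; nlinarith
  have hbd : ∀ m : ℕ, 1 ≤ m → m ≤ 3 * A ^ 2 → (m.divisors.card : ℝ) ≤ C * X ^ (ε / 6) := by
    intro m hm hmA
    refine (hC m hm).trans (mul_le_mul_of_nonneg_left ?_ hC0.le)
    refine Real.rpow_le_rpow (Nat.cast_nonneg m) ?_ (by positivity)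
    rw [hX]; exact_mod_cast hmA
  have hd : (D.natAbs.divisors.card : ℝ) ≤ C * X ^ (ε / 6) :=
    hbd _ (Nat.one_le_iff_ne_zero.2 (by simpa using hD0)) hn
  have hA2 : 1 ≤ 3 * A ^ 2 := by nlinarith
  have hlog : ((Nat.log 2 (3 * A ^ 2) + 1 : ℕ) : ℝ) ≤ C * X ^ (ε / 6) := by
    have h1 := hbd (2 ^ Nat.log 2 (3 * A ^ 2)) Nat.one_le_two_pow
      (Nat.pow_log_le_self 2 (by omega))
    rwa [Nat.divisors_prime_pow Nat.prime_two, card_map, card_range] at h1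
  have hS : ((Sol 1 (3 * A ^ 2)).card : ℝ) ≤ (K1 + 1) * (C * X ^ (ε / 6)) := by
    have h1 : ((Sol 1 (3 * A ^ 2)).card : ℝ) ≤ K1 * ((Nat.log 2 (3 * A ^ 2) + 1 : ℕ) : ℝ) := by
      exact_mod_cast hK1 (3 * A ^ 2) hA2
    refine h1.trans ?_
    have h3 : (0 : ℝ) ≤ ((Nat.log 2 (3 * A ^ 2) + 1 : ℕ) : ℝ) := Nat.cast_nonneg _
    have h4 : (0 : ℝ) ≤ K1 := Nat.cast_nonneg _
    nlinarith
  have hpos : (0 : ℝ) ≤ C * X ^ (ε / 6) := by positivity
  have h3 : ((Sol D A).card : ℝ) ≤ (D.natAbs.divisors.card : ℝ) * ((Sol 1 (3 * A ^ 2)).card : ℝ) *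
      (D.natAbs.divisors.card : ℝ) := by exact_mod_cast sol_le hD h2
  calc ((Sol D A).card : ℝ) ≤ _ := h3
    _ ≤ (C * X ^ (ε / 6)) * ((K1 + 1) * (C * X ^ (ε / 6))) * (C * X ^ (ε / 6)) := by
        gcongr
    _ = (K1 + 1) * C ^ 3 * (X ^ (ε / 6)) ^ 3 := by ring
    _ = (K1 + 1) * C ^ 3 * (3 : ℝ) ^ (ε / 2) * (A : ℝ) ^ ε := by
        have e1 : (X ^ (ε / 6)) ^ 3 = X ^ (ε / 2) := by
          rw [← Real.rpow_natCast, ← Real.rpow_mul (by positivity)]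
          congr 1; push_cast; ring
        have e2 : X ^ (ε / 2) = (3 : ℝ) ^ (ε / 2) * (A : ℝ) ^ ε := by
          rw [hX, Real.mul_rpow (by norm_num) (by positivity), ← Real.rpow_natCast,
            ← Real.rpow_mul (by positivity)]
          congr 2; push_cast; ring
        rw [e1, e2]; ring

end Pool.Agent.TH566.CT
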